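import Mathlib
import Pool.Agent.Lib_helper7.LechMumford.Defs
import Pool.Agent.Lib_helper7.LechMumford.Proof

/-!
# The Lech-Mumford constant of `R[[T]]` is computed by arbitrarily deep ideals

For every Noetherian local ring `(R, m)` and every `N`, `L_N(R) = LM(R[[T]])`; in particular
`lim L_N(R) = LM(R[[T]])`.
-/

namespace Pool.Agent.Results.MP_57f84f_al.DeepIdeals

open Filter Topology Pool.Agent.Lib_helper7.LechMumford
open scoped PowerSeries

universe u

/-- **Main result.** For every Noetherian local ring `R` and every `N`, the constant `L_N(R)`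
equals the Lech-Mumford constant of `R[[T]]`; hence `LM(R[[T]]) = lim_N L_N(R)`. -/
theorem result (R : Type u) [CommRing R] [IsNoetherianRing R] [IsLocalRing R] :
    (∀ N : ℕ, deepLM R N = LM R⟦X⟧) ∧ Tendsto (fun N : ℕ => deepLM R N) atTop (𝓝 (LM R⟦X⟧)) :=
  ⟨deepLM_eq, by simp only [deepLM_eq]; exact tendsto_const_nhds⟩

end Pool.Agent.Results.MP_57f84f_al.DeepIdeals
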